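import Mathlib
import Pool.Agent.H16.LA.S8.Y733.DYN.Loc

/-!
# Hénon maps with a large constant term: one nonarchimedean place
-/

set_option autoImplicit false
set_option linter.unusedSectionVars false

namespace Pool.Agent.Y733.HEN

open Polynomial Pool.Agent.Y733.LS Pool.Agent.Y733.DYN

section Local

variable {L : Type} [Field L] {w : AbsoluteValue L ℝ}

/-- the conditions at the place: simple pole of the constant term, other coefficients integral -/
structure LocC (w : AbsoluteValue L ℝ) (F : L[X]) (δ : L) (r : ℝ) : Prop where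
  na : Na w
  one_lt : 1 < r
  const : w (F.coeff 0) = r
  coeffs : ∀ i, 1 ≤ i → w (F.coeff i) ≤ 1
  lead : w F.leadingCoeff = 1
  delta : w δ ≤ 1
  delta0 : δ ≠ 0
  deg : 2 ≤ F.natDegree
  gap : ∀ y : L, 1 < w y → r < w y ^ F.natDegree

variable {F : L[X]} {δ : L} {r : ℝ}

theorem eval_split (F : L[X]) (y : L) : F.eval y =
    (∑ i ∈ Finset.range F.natDegree, F.coeff (i + 1) * y ^ (i + 1)) + F.coeff 0 := by
  rw [eval_eq_sum_range, Finset.sum_range_succ']
  simp

theorem eval_small (h : LocC w F δ r) {y : L} (hy : w y ≤ 1) : w (F.eval y) = r := by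
  rw [eval_split, add_comm, h.na.eq, h.const]
  rw [h.const]
  refine lt_of_le_of_lt ?_ h.one_lt
  refine na_sum h.na _ _ zero_le_one fun i _ => ?_
  rw [map_mul, map_pow]
  exact mul_le_one₀ (h.coeffs _ (by omega)) (by positivity) (pow_le_one₀ (w.nonneg _) hy)

theorem eval_big (h : LocC w F δ r) {y : L} (hy : 1 < w y) :
    w (F.eval y) = w y ^ F.natDegree := by
  have hgap := h.gap y hy
  have hdeg := h.deg
  have e1 : F.eval y = F.leadingCoeff * y ^ F.natDegree +
      ((∑ i ∈ Finset.range (F.natDegree - 1), F.coeff (i + 1) * y ^ (i + 1)) + F.coeff 0) := by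
    rw [eval_split]
    obtain ⟨m, hm⟩ : ∃ m, F.natDegree = m + 1 := ⟨F.natDegree - 1, by omega⟩
    have e2 : F.coeff (m + 1) = F.leadingCoeff := by rw [leadingCoeff, hm]
    rw [hm, Finset.sum_range_succ, e2, Nat.add_sub_cancel]
    ring
  have e3 : w (F.leadingCoeff * y ^ F.natDegree) = w y ^ F.natDegree := by
    rw [map_mul, map_pow, h.lead, one_mul]
  rw [e1, h.na.eq, e3]
  rw [e3]
  refine h.na.lt_add ?_ ?_
  · refine lt_of_le_of_lt (na_sum h.na _ _ (r := w y ^ (F.natDegree - 1)) (by positivity)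
      fun i hi => ?_) (pow_lt_pow_right₀ hy (by omega))
    rw [Finset.mem_range] at hi
    rw [map_mul, map_pow]
    calc w (F.coeff (i + 1)) * w y ^ (i + 1) ≤ 1 * w y ^ (i + 1) :=
          mul_le_mul_of_nonneg_right (h.coeffs _ (by omega)) (by positivity)
      _ = w y ^ (i + 1) := one_mul _
      _ ≤ _ := pow_le_pow_right₀ hy.le (by omega)
  · rw [h.const]
    exact hgap

theorem r_le_eval (h : LocC w F δ r) (y : L) : r ≤ w (F.eval y) ∧ w y ≤ w (F.eval y) := by
  have h1 := h.one_lt
  rcases le_or_gt (w y) 1 with hy | hy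
  · rw [eval_small h hy]
    exact ⟨le_rfl, by linarith⟩
  · rw [eval_big h hy]
    exact ⟨(h.gap y hy).le, le_self_pow₀ hy.le (by have := h.deg; omega)⟩

theorem lt_eval (h : LocC w F δ r) {y : L} (hy : r ≤ w y) :
    w (F.eval y) = w y ^ F.natDegree ∧ w y < w (F.eval y) := by
  have h1 := h.one_lt
  have h2 : 1 < w y := by linarith
  have h3 := eval_big h h2
  refine ⟨h3, ?_⟩
  rw [h3]
  exact lt_self_pow₀ h2 (by have := h.deg; omega)

/-- the Hénon map -/
noncomputable def hen (F : L[X]) (δ : L) (P : L × L) : L × L := (P.2, F.eval P.2 - δ * P.1)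

/-- its inverse -/
noncomputable def inv (F : L[X]) (δ : L) (P : L × L) : L × L := ((F.eval P.1 - P.2) / δ, P.1)

theorem inv_hen (hδ : δ ≠ 0) (P : L × L) : inv F δ (hen F δ P) = P := by
  unfold inv hen
  ext
  · simp only
    rw [sub_sub_cancel, mul_div_cancel_left₀ _ hδ]
  · rfl

theorem hen_inv (hδ : δ ≠ 0) (P : L × L) : hen F δ (inv F δ P) = P := by
  unfold inv hen
  ext
  · rfl
  · simp only
    field_simp
    ring

theorem fwd_step (h : LocC w F δ r) {P : L × L} (h1 : r ≤ w P.2) (h2 : w P.1 ≤ w P.2) :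
    w (hen F δ P).2 = w P.2 ^ F.natDegree ∧ w (hen F δ P).1 ≤ w (hen F δ P).2 := by
  obtain ⟨h3, h4⟩ := lt_eval h h1
  have h5 : w (δ * P.1) < w (F.eval P.2) := by
    rw [map_mul]
    refine lt_of_le_of_lt ((mul_le_of_le_one_left (w.nonneg _) h.delta).trans h2) h4
  have h6 : w (hen F δ P).2 = w (F.eval P.2) := by
    unfold hen
    simp only
    rw [sub_eq_add_neg]
    exact h.na.eq (by rw [w.map_neg]; exact h5)
  refine ⟨by rw [h6, h3], ?_⟩
  rw [h6]
  exact h4.le

theorem bwd_step (h : LocC w F δ r) {P : L × L} (h1 : r ≤ w P.1) (h2 : w P.2 ≤ w P.1) :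
    w P.1 ^ F.natDegree ≤ w (inv F δ P).1 ∧ w (inv F δ P).2 ≤ w (inv F δ P).1 := by
  obtain ⟨h3, h4⟩ := lt_eval h h1
  have h6 : w (F.eval P.1 - P.2) = w (F.eval P.1) := by
    rw [sub_eq_add_neg]
    exact h.na.eq (by rw [w.map_neg]; exact h2.trans_lt h4)
  have h7 : 0 < w δ := w.pos h.delta0
  have h8 : w (F.eval P.1) ≤ w (inv F δ P).1 := by
    unfold inv
    simp only
    rw [map_div₀, h6]
    rw [le_div_iff₀ h7]
    exact mul_le_of_le_one_right (w.nonneg _) h.delta
  refine ⟨by rw [← h3]; exact h8, ?_⟩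
  exact h4.le.trans h8

/-- every point escapes under the map or under its inverse -/
theorem escape (h : LocC w F δ r) (P : L × L) :
    (∀ k : ℕ, r ^ F.natDegree ^ k ≤ w ((hen F δ)^[k + 1] P).2) ∨
      ∀ k : ℕ, r ^ F.natDegree ^ k ≤ w ((inv F δ)^[k] P).1 := by
  have hr := h.one_lt
  obtain ⟨g1, g2⟩ := r_le_eval h P.2
  rcases le_or_gt (w (F.eval P.2)) (w (hen F δ P).2) with hc | hc
  · left
    have key : ∀ k : ℕ, r ^ F.natDegree ^ k ≤ w ((hen F δ)^[k + 1] P).2 ∧
        w ((hen F δ)^[k + 1] P).1 ≤ w ((hen F δ)^[k + 1] P).2 := by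
      intro k
      induction k with
      | zero =>
        rw [pow_zero, pow_one, zero_add, Function.iterate_one]
        refine ⟨g1.trans hc, ?_⟩
        exact g2.trans hc
      | succ k ih =>
        obtain ⟨i1, i2⟩ := ih
        have h1 : r ≤ w ((hen F δ)^[k + 1] P).2 :=
          (le_self_pow₀ hr.le (by have := h.deg; positivity)).trans i1
        obtain ⟨s1, s2⟩ := fwd_step h h1 i2
        rw [Function.iterate_succ', Function.comp_apply]
        refine ⟨?_, s2⟩
        rw [s1, pow_succ, pow_mul]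
        exact pow_le_pow_left₀ (by positivity) i1 _
    exact fun k => (key k).1
  · right
    have h0 : w (F.eval P.2) ≤ w P.1 := by
      have e1 : F.eval P.2 = (hen F δ P).2 + δ * P.1 := by
        unfold hen
        ring
      by_contra hcon
      push Not at hcon
      have h2 : w (δ * P.1) < w (F.eval P.2) := by
        rw [map_mul]
        exact (mul_le_of_le_one_left (w.nonneg _) h.delta).trans_lt hcon
      have h3 := h.na.lt_add hc h2
      rw [← e1] at h3
      exact lt_irrefl _ h3
    have key : ∀ k : ℕ, r ^ F.natDegree ^ k ≤ w ((inv F δ)^[k] P).1 ∧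
        w ((inv F δ)^[k] P).2 ≤ w ((inv F δ)^[k] P).1 := by
      intro k
      induction k with
      | zero =>
        rw [pow_zero, pow_one, Function.iterate_zero, id]
        exact ⟨g1.trans h0, g2.trans h0⟩
      | succ k ih =>
        obtain ⟨i1, i2⟩ := ih
        have h1 : r ≤ w ((inv F δ)^[k] P).1 :=
          (le_self_pow₀ hr.le (by have := h.deg; positivity)).trans i1
        obtain ⟨s1, s2⟩ := bwd_step h h1 i2
        rw [Function.iterate_succ', Function.comp_apply]
        refine ⟨?_, s2⟩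
        refine le_trans ?_ s1
        rw [pow_succ, pow_mul]
        exact pow_le_pow_left₀ (by positivity) i1 _
    exact fun k => (key k).1

end Local

end Pool.Agent.Y733.HEN
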